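import Pool.Agent.Helper22.LC.Final

set_option autoImplicit false

namespace Pool.Agent.Results.MP_eb2336_co.NearlyEquilateral

open Set

/-- Euclidean three-space. -/
abbrev Space := EuclideanSpace ℝ (Fin 3)

/-- The points `q 0, …, q n` form a configuration of the fixed-angle chain with `n` links, link
lengths `ℓ i` (for the link joining vertex `i` to vertex `i + 1`) and turn angles `θ j` (at the
interior vertex `j`, that is between link `j - 1` and link `j`; the value `θ 0` is not used):
lengths and turn angles are as prescribed and the polygonal path is simple, which means that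
consecutive links meet only in their common vertex and all other pairs of links are disjoint. -/
structure IsConfiguration {n : ℕ} (ℓ θ : Fin n → ℝ) (q : Fin (n + 1) → Space) : Prop where
  length : ∀ i : Fin n, dist (q i.castSucc) (q i.succ) = ℓ i
  turn : ∀ i j : Fin n, (i : ℕ) + 1 = j →
    InnerProductGeometry.angle (q i.succ - q i.castSucc) (q j.succ - q j.castSucc) = θ j
  consecutive : ∀ i j : Fin n, (i : ℕ) + 1 = j →
    segment ℝ (q i.castSucc) (q i.succ) ∩ segment ℝ (q j.castSucc) (q j.succ) = {q j.castSucc}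
  distant : ∀ i j : Fin n, (i : ℕ) + 1 < j →
    Disjoint (segment ℝ (q i.castSucc) (q i.succ)) (segment ℝ (q j.castSucc) (q j.succ))

/-- All vertices lie in one plane. -/
def IsFlat {n : ℕ} (q : Fin (n + 1) → Space) : Prop :=
  ∃ S : AffineSubspace ℝ Space, Module.finrank ℝ S.direction = 2 ∧ ∀ i, q i ∈ S

/-- `q` can be moved to `q'`: there is a continuous path of configurations from `q` to `q'`. -/
def CanMove {n : ℕ} (ℓ θ : Fin n → ℝ) (q q' : Fin (n + 1) → Space) : Prop :=
  ∃ Q : ℝ → Fin (n + 1) → Space, ContinuousOn Q (Icc 0 1) ∧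
    (∀ t ∈ Icc (0 : ℝ) 1, IsConfiguration ℓ θ (Q t)) ∧ Q 0 = q ∧ Q 1 = q'

/-- The chain has a configuration that cannot be moved to a flat configuration. -/
def IsLocked {n : ℕ} (ℓ θ : Fin n → ℝ) : Prop :=
  ∃ q : Fin (n + 1) → Space, IsConfiguration ℓ θ q ∧ ¬ ∃ q', CanMove ℓ θ q q' ∧ IsFlat q'

/-- The largest link length divided by the smallest link length is `L`. -/
def HasLengthRatio {n : ℕ} (ℓ : Fin n → ℝ) (L : ℝ) : Prop :=
  ∃ i j : Fin n, (∀ k, ℓ k ≤ ℓ i) ∧ (∀ k, ℓ j ≤ ℓ k) ∧ ℓ i / ℓ j = L

/-- For every `α` with `0 < α ≤ π / 2` there is a number `n` such that for every `ε` in `[0, 1]`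
there is a locked fixed-angle chain with `n` links of positive lengths, all of whose turn angles
lie in `(0, α]`, and whose length ratio is exactly `1 + ε`. -/
theorem result (α : ℝ) (hα : α ∈ Ioc 0 (Real.pi / 2)) :
    ∃ n : ℕ, ∀ ε : ℝ, 0 ≤ ε → ε ≤ 1 →
      ∃ ℓ θ : Fin n → ℝ, (∀ i, 0 < ℓ i) ∧ (∀ j : Fin n, 0 < (j : ℕ) → 0 < θ j ∧ θ j ≤ α) ∧
        HasLengthRatio ℓ (1 + ε) ∧ IsLocked ℓ θ := by
  obtain ⟨M, N, hM, hN, H⟩ := Pool.Agent.Helper22.LC.main_nat α hα.1
  refine ⟨2 * N + M, fun ε h0 h1 => ?_⟩
  obtain ⟨θ, q, hθ, hqt, hq, hlock⟩ := H (1 + ε) (by linarith) (by linarith)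
  refine ⟨fun i => Pool.Agent.Helper22.LC.len M N (1 + ε) i, fun i => θ i, ?_, ?_, ?_, ?_⟩
  · intro i
    exact Pool.Agent.Helper22.LC.len_pos M N (1 + ε) (by linarith) i
  · intro j hj
    exact hθ j hj j.isLt
  · have hL := Pool.Agent.Helper22.LC.len_lengths M N (1 + ε)
    have hb : ∀ i : ℕ, 1 ≤ Pool.Agent.Helper22.LC.len M N (1 + ε) i ∧
        Pool.Agent.Helper22.LC.len M N (1 + ε) i ≤ 1 + ε := by
      intro i
      unfold Pool.Agent.Helper22.LC.len
      split_ifs <;> constructor <;> linarith
    have e1 := hL.left 0 (by omega)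
    have e2 := hL.mid N le_rfl (by omega)
    refine ⟨⟨0, by omega⟩, ⟨N, by omega⟩, ?_, ?_, ?_⟩
    · intro k
      beta_reduce
      rw [e1]
      exact (hb k).2
    · intro k
      beta_reduce
      rw [e2]
      exact (hb k).1
    · beta_reduce
      rw [e1, e2, div_one]
  · refine ⟨fun i => q i, ?_, ?_⟩
    · refine ⟨?_, ?_, ?_, ?_⟩
      · intro i
        rw [dist_comm, dist_eq_norm]
        exact hq.length i i.isLt
      · intro i j hij
        have := hq.turn j (by omega) j.isLt
        have e : (j : ℕ) - 1 = i := by omega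
        rw [e] at this
        simpa [hij] using this
      · intro i j hij
        have := hq.simple.1 i (by omega)
        simpa [← hij] using this
      · intro i j hij
        exact hq.simple.2 i j hij j.isLt
    · rintro ⟨q', ⟨Q, hQc, hQ, hQ0, hQ1⟩, S, hS, hSq⟩
      refine hlock (fun t i => Q t ⟨min i (2 * N + M), by omega⟩) ?_ ?_ ?_ ⟨S, hS, ?_⟩
      · intro t ht
        have h := hQ t ht
        refine ⟨?_, ?_, ?_, ?_⟩
        · intro i hi
          have := h.length ⟨i, hi⟩
          rw [dist_comm, dist_eq_norm] at this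
          simpa [min_eq_left hi.le, min_eq_left (Nat.succ_le_of_lt hi)] using this
        · intro i h1 hi
          have := h.turn ⟨i - 1, by omega⟩ ⟨i, hi⟩ (by simp; omega)
          have e : i - 1 + 1 = i := by omega
          simpa [min_eq_left hi.le, min_eq_left (Nat.succ_le_of_lt hi),
            min_eq_left (by omega : i - 1 ≤ 2 * N + M), e] using this
        · intro i hi
          have := h.consecutive ⟨i, by omega⟩ ⟨i + 1, hi⟩ rfl
          simpa [min_eq_left (by omega : i ≤ 2 * N + M), min_eq_left (by omega : i + 1 ≤ 2 * N + M),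
            min_eq_left (by omega : i + 2 ≤ 2 * N + M)] using this
        · intro i j hij hj
          have := h.distant ⟨i, by omega⟩ ⟨j, hj⟩ hij
          simpa [min_eq_left (by omega : i ≤ 2 * N + M), min_eq_left (by omega : i + 1 ≤ 2 * N + M),
            min_eq_left (by omega : j ≤ 2 * N + M), min_eq_left (by omega : j + 1 ≤ 2 * N + M)]
            using this
      · intro i hi t ht
        exact (continuousWithinAt_pi.1 (hQc t ht)) _
      · funext i
        rw [hQ0]
        exact hqt i
      · intro i hi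
        rw [hQ1]
        exact hSq _

end Pool.Agent.Results.MP_eb2336_co.NearlyEquilateral
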